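import Pool.Agent.H942.KC.Roots
import Pool.Graph.R_pool_sql_team_seeded_5cf16337.K3h15.DM.Disc
import Pool.Graph.R_pool_sql_team_seeded_5cf16337.K3h15.DM.Zeta

set_option autoImplicit false

/-! # The monodromy conjecture for discriminants of imprimitive complex reflection groups and other
# Kummer covers of discriminants

Let `e ≥ 2`, `n ≥ 1`, and let `q, x_1, …, x_{n-1}` be the coordinates of `ℂ ^ n`. Let

  `h = T ^ n + x_{n-1} T ^ (n-1) + ⋯ + x_1 T + q ^ e`,
  `f = disc(h) ^ a * q ^ b * ∏ j, h(z_j) ^ (β_j)`,   `a ≥ 1`, `b ≥ 0`, `β_j ≥ 1`,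

with distinct points `z_1, …, z_r ≠ 0`, `r ≥ 0`. For `e = 1` these are the polynomials of the library
theorem `MP_a2a574_ag.DiscriminantPowers`; for `e ≥ 2`, `f` is the pull back of such a polynomial
under the Kummer cover `q ↦ q ^ e`, which is ramified along the hyperplane `h(0) = 0`, a
tangent hyperplane of the discriminant.

Reflection groups. The group `W = G(m, p, n)` (`p ∣ m`) acts on `ℂ ^ n` with the basic invariants
`e_i(y_1 ^ m, …, y_n ^ m)`, `i < n`, and `q = (y_1 ⋯ y_n) ^ (m / p)`. Up to signs these are the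
coefficients of `h = ∏ (T - y_i ^ m)` and `q`, with `q ^ p = ± h(0)`. So, up to signs of the
coordinates and a linear change of `q`, the polynomials `f` with `r = 0`, `e = p` are the discriminants
of the groups `G(m, p, n)`, `p ≥ 2`, with all multiplicities: `disc(h)` belongs to the reflections
`y_i ↔ ζ y_j` and `q` to the reflections in `y_i = 0` (if `p < m`). For instance `G(2, 2, n) = D_n`;
`G(m, m, 2)` is the dihedral group and `f = (x_1 ^ 2 - 4 q ^ m) ^ a`. The groups which are not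
complexified real reflection groups, that is, `m ≥ 3` and `n ≥ 3` or `p < m`, are not in the library
theorem `ReflectionDiscriminants`.

The topological zeta function. Put `y_i ^ e = x_i`, the roots of `h`. Then `(q, x_1, …, x_{n-1})` is
the quotient of `ℂ ^ n` by `G(e, e, n)`, the pull back of `f` is a product of powers of the affine
linear forms `y_i - ζ y_j`, `y_i`, `y_i - w`, `ζ ^ e = 1`, `w ^ e = z_j`, and the pull back of
`dq ∧ dx_1 ∧ ⋯ ∧ dx_{n-1}` is `∏_{i<j} (y_i ^ e - y_j ^ e) dy_1 ∧ ⋯ ∧ dy_n`, up to a constant. The wonderful model of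
this arrangement has the exceptional divisors for the clusters of `m` of the `y_i ^ e` which come
together at a point different from `0, z_1, …, z_r`, with `ν = (m - 1) (m + 2) / 2`, `N = a m (m - 1)`; for
the clusters of `m` at `z_j`, `ν = m (m + 1) / 2`, `N = a m (m - 1) + β_j m`; and for the clusters of `m` at
`0`, `ν = e m (m - 1) / 2 + m`, `N = a e m (m - 1) + b m`. By the change of variables formula for
quotient maps (Denef–Loeser) the topological zeta function of `f` is a linear combination of products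
of the factors `1 / (N s + ν)`; in the statement the coefficients are arbitrary (`Zt`).

The roots of the b-functions. For the clusters at `0` (and the free ones) one would like to use the
functional `g ↦ ∫ g dq dx` over the polynomials `h` with nonnegative real roots, that is, with `x_0 = q ^ e`,
`∫ g x_0 ^ (1/e - 1) dx_0 dx_1 ⋯ dx_{n-1}`, with a FRACTIONAL power of the product of the roots. The
library gives the values of these integrals for integral powers as polynomials in the exponent; the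
functionals here are defined by these polynomials at the fractional exponent (`LamA`), the rules of
partial integration hold because they hold at the integers, and after the substitution `x_0 = q ^ e`
and the projection to the functions invariant under `q ↦ ζ q` there are no boundary conditions at
`q = 0` (`ibp_q`), so that also `b = 0` is allowed; the normalizing constants are not zero (`Ex_ne`:
a zero would be repeated with period one). A functional equation of `f` gives a polynomial
identity for these functionals at the multiples of `e`, hence everywhere (`gen0`). For the clusters at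
`z_j ≠ 0` the projection to the last isotypic component is used (`ibp_z`, `genz`). -/

namespace Pool.Agent.Results.MP_a2a574_ag.ImprimitiveDiscriminants

open Pool.Agent.K3h15.DM Pool.Agent.H628R4.TP MvPolynomial

/-- A polynomial in the coefficients `x_0, …, x_{n-1}` of `h`, taken at `x_0 = q ^ e`; the variable
with the index `0` of the result is `q`. -/
noncomputable def ram (n : ℕ) (hn : 0 < n) (e : ℕ) (g : MvPolynomial (Fin n) ℂ) :
    MvPolynomial (Fin n) ℂ :=
  aeval (fun j : Fin n => if j = ⟨0, hn⟩ then X j ^ e else X j) g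

/-- `f = F(q ^ e, x_1, …) ^ a * q ^ b * ∏ j, h(z_j) ^ (β_j)`, where `h(z_j)` is also taken at
`x_0 = q ^ e`. -/
noncomputable def kummer (n : ℕ) (hn : 0 < n) (e : ℕ) (F : MvPolynomial (Fin n) ℂ) (a b r : ℕ)
    (z : Fin r → ℂ) (β : Fin r → ℕ) : MvPolynomial (Fin n) ℂ :=
  ram n hn e F ^ a * X ⟨0, hn⟩ ^ b * ∏ j, ram n hn e (hz n (z j)) ^ β j

/-- `ν`: for the free clusters of `m = i + 2` roots, `(m - 1) (m + 2) / 2`; for the clusters of
`m = i + 1` roots at `z_j`, `m (m + 1) / 2`; for the clusters of `m = i + 1` roots at `0`,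
`e m (m - 1) / 2 + m`. -/
def nuK (n e r : ℕ) : Fin (n - 1) ⊕ ((Fin r × Fin n) ⊕ Fin n) → ℕ
  | Sum.inl i => ((i + 1) * (i + 4)) / 2
  | Sum.inr (Sum.inl (_, i)) => ((i + 1) * (i + 2)) / 2
  | Sum.inr (Sum.inr i) => e * ((i + 1) * i / 2) + (i + 1)

/-- `N`: for the free clusters of `m = i + 2` roots, `a m (m - 1)`; for the clusters of `m = i + 1`
roots at `z_j`, `a m (m - 1) + β_j m`; for the clusters of `m = i + 1` roots at `0`,
`a e m (m - 1) + b m`. -/
def mulK (n e r a b : ℕ) (β : Fin r → ℕ) : Fin (n - 1) ⊕ ((Fin r × Fin n) ⊕ Fin n) → ℕ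
  | Sum.inl i => a * ((i + 2) * (i + 1))
  | Sum.inr (Sum.inl (j, i)) => a * ((i + 1) * i) + β j * (i + 1)
  | Sum.inr (Sum.inr i) => a * (e * ((i + 1) * i)) + b * (i + 1)

theorem half_cast {u : ℕ} (h : 2 ∣ u) : ((u / 2 : ℕ) : ℂ) = (u : ℂ) / 2 := by
  rw [Nat.cast_div h (by norm_num)]
  norm_num

/-- **The monodromy conjecture holds for `f = disc(h) ^ a * q ^ b * ∏ j, h(z_j) ^ β_j`**,
`h = T ^ n + x_{n-1} T ^ (n-1) + ⋯ + x_1 T + q ^ e`, `e ≥ 2`. Let `c` satisfy a functional equation
`c(s) f ^ s = P(s) f ^ (s + 1)`, for instance, let `c` be the Bernstein-Sato polynomial of `f`. The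
following numbers are roots of `c`.
(1) `-(1 / 2 + 1 / m + i) / a`, `2 ≤ m ≤ n`, `0 ≤ i < a`.
(2) `-((m + 1) / 2 + i (m - 1) + i') / (a (m - 1) + β_j)`, `1 ≤ m ≤ n`, `0 ≤ i ≤ a`, `0 ≤ i' ≤ β_j` and
`i' < β_j` or `m ≥ 2`, `i < a`.
(3) `-(1 / e + (m - 1) / 2 + i (m - 1) + i') / (a (m - 1) + b / e)`, `1 ≤ m ≤ n`, `0 ≤ i ≤ a`,
`0 ≤ i' ≤ ⌈b / e⌉`, and `i' < ⌈b / e⌉` or `m ≥ 2`, `i < a`.
(4) Every pole of the topological zeta function of `f`, which is a linear combination of products of
the factors `1 / (N s + ν)` (the coefficients may be arbitrary).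
(The polynomial `F`, the discriminant as a polynomial in the coefficients, exists and is unique.) -/
theorem result (n e : ℕ) (hn : 0 < n) (he : 2 ≤ e) :
    (∃! F : MvPolynomial (Fin n) ℂ, IsDisc n F) ∧
    ∀ F : MvPolynomial (Fin n) ℂ, IsDisc n F → ∀ (a b r : ℕ) (z : Fin r → ℂ) (β : Fin r → ℕ),
    1 ≤ a → Function.Injective z → (∀ j, z j ≠ 0) → (∀ j, 1 ≤ β j) → ∀ c : Polynomial ℂ,
    IsBFunction (kummer n hn e F a b r z β) c →
    (∀ m i : ℕ, 2 ≤ m → m ≤ n → i < a → c.eval (-(1 / 2 + 1 / (m : ℂ) + i) / a) = 0) ∧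
    (∀ (j : Fin r) (m i i' : ℕ), 1 ≤ m → m ≤ n → i ≤ a → i' ≤ β j →
      (i' < β j ∨ (2 ≤ m ∧ i < a)) →
      c.eval (-(((m : ℂ) + 1) / 2 + i * (m - 1) + i') / (a * (m - 1) + β j)) = 0) ∧
    (∀ m i i' : ℕ, 1 ≤ m → m ≤ n → i ≤ a → i' ≤ (b + (e - 1)) / e →
      (i' < (b + (e - 1)) / e ∨ (2 ≤ m ∧ i < a)) →
      c.eval (-((1 / (e : ℂ) + ((m : ℂ) - 1) / 2) + i * (m - 1) + i') /
        (a * (m - 1) + b / e)) = 0) ∧
    ∀ (χ : (Fin (n - 1) ⊕ ((Fin r × Fin n) ⊕ Fin n) → ℕ) →₀ ℂ) (s₀ : ℂ),
      (Zt (nuK n e r) (mulK n e r a b β) χ).denom.eval s₀ = 0 → c.eval s₀ = 0 := by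
  refine ⟨disc_unique n, fun F hF a b r z β ha hz hz0 hβ c hc => ?_⟩
  have h1 : ∀ m i : ℕ, 2 ≤ m → m ≤ n → i < a →
      c.eval (-(1 / 2 + 1 / (m : ℂ) + i) / a) = 0 := fun m i hm hmn hi =>
    Pool.Agent.H942.KC.roots_free hn hF ha he hz0 hc hm hmn hi
  have h2 : ∀ (j : Fin r) (m i i' : ℕ), 1 ≤ m → m ≤ n → i ≤ a → i' ≤ β j →
      (i' < β j ∨ (2 ≤ m ∧ i < a)) →
      c.eval (-(((m : ℂ) + 1) / 2 + i * (m - 1) + i') / (a * (m - 1) + β j)) = 0 :=
    fun j m i i' hm hmn hi hi' hii =>
      Pool.Agent.H942.KC.roots_marked hn hF ha he hz0 hz hc (hβ j) hm hmn hi hi' hii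
  have h3 : ∀ m i i' : ℕ, 1 ≤ m → m ≤ n → i ≤ a → i' ≤ (b + (e - 1)) / e →
      (i' < (b + (e - 1)) / e ∨ (2 ≤ m ∧ i < a)) →
      c.eval (-((1 / (e : ℂ) + ((m : ℂ) - 1) / 2) + i * (m - 1) + i') /
        (a * (m - 1) + b / e)) = 0 := fun m i i' hm hmn hi hi' hii =>
    Pool.Agent.H942.KC.roots_ram hn hF ha he hz0 hc hm hmn hi hi' hii
  refine ⟨h1, h2, h3, fun χ s₀ hs => ?_⟩
  have ha0 : (a : ℂ) ≠ 0 := by
    have : a ≠ 0 := by omega
    exact_mod_cast this
  have he0 : (e : ℂ) ≠ 0 := by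
    have : e ≠ 0 := by omega
    exact_mod_cast this
  obtain ⟨x, hx, rfl⟩ := pole_Zt _ _ χ (by
    rintro (i | ⟨j, i⟩ | i)
    · have : 2 ≤ ((i : ℕ) + 1) * (i + 4) := by nlinarith
      simp only [nuK]
      omega
    · have : 2 ≤ ((i : ℕ) + 1) * (i + 2) := by nlinarith
      simp only [nuK]
      omega
    · simp only [nuK]
      omega) s₀ hs
  rcases x with i | ⟨j, i⟩ | i
  · have h3 := h1 (i + 2) 0 (by omega) (by omega) (by omega)
    have h5 : 2 ∣ ((i : ℕ) + 1) * (i + 4) := by
      rcases Nat.even_or_odd (i : ℕ) with h | h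
      · exact (even_iff_two_dvd.mp (h.add (by decide))).mul_left _
      · exact (even_iff_two_dvd.mp (h.add_odd (by decide))).mul_right _
    have h6 : (((i : ℕ) : ℂ) + 1) ≠ 0 := Nat.cast_add_one_ne_zero (i : ℕ)
    have h7 : (((i : ℕ) : ℂ) + 2) ≠ 0 := by
      have : (i : ℕ) + 2 ≠ 0 := by omega
      exact_mod_cast this
    have h8 : -((nuK n e r (Sum.inl i) : ℕ) : ℂ) / (mulK n e r a b β (Sum.inl i) : ℕ) =
        -(1 / 2 + 1 / (((i : ℕ) + 2 : ℕ) : ℂ) + (0 : ℕ)) / a := by
      simp only [nuK, mulK]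
      rw [half_cast h5]
      push_cast
      field_simp
      ring
    rw [h8]
    exact h3
  · have hbj := hβ j
    have h3 := h2 j (i + 1) 0 0 (by omega) (by omega) (by omega) (by omega) (Or.inl (by omega))
    have h5 : 2 ∣ ((i : ℕ) + 1) * (i + 2) := by
      rcases Nat.even_or_odd (i : ℕ) with h | h
      · exact (even_iff_two_dvd.mp (h.add (by decide))).mul_left _
      · exact (even_iff_two_dvd.mp (h.add_odd (by decide))).mul_right _
    have h6 : (((i : ℕ) : ℂ) + 1) ≠ 0 := Nat.cast_add_one_ne_zero (i : ℕ)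
    have h7 : ((a : ℂ) * i + β j) ≠ 0 := by
      have : a * (i : ℕ) + β j ≠ 0 := by omega
      exact_mod_cast this
    have h8 : -((nuK n e r (Sum.inr (Sum.inl (j, i))) : ℕ) : ℂ) /
        (mulK n e r a b β (Sum.inr (Sum.inl (j, i))) : ℕ) =
        -((((((i : ℕ) + 1 : ℕ)) : ℂ) + 1) / 2 + (0 : ℕ) * ((((i : ℕ) + 1 : ℕ) : ℂ) - 1) +
          (0 : ℕ)) / (a * ((((i : ℕ) + 1 : ℕ) : ℂ) - 1) + β j) := by
      simp only [nuK, mulK]
      rw [half_cast h5]
      push_cast
      have h9 : (a : ℂ) * ((i + 1) * i) + β j * (i + 1) = (i + 1) * (a * i + β j) := by ring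
      have h10 : (a : ℂ) * ((i : ℂ) + 1 - 1) + β j = a * i + β j := by ring
      rw [h9, h10]
      field_simp
      ring
    rw [h8]
    exact h3
  · simp only [mulK] at hx
    have hbi : 1 ≤ b ∨ 1 ≤ (i : ℕ) := by
      by_contra hcon
      have hb : b = 0 := by omega
      have hi : (i : ℕ) = 0 := by omega
      rw [hb, hi] at hx
      simp at hx
    have h4 := h3 (i + 1) 0 0 (by omega) (by omega) (by omega) (Nat.zero_le _) (by
      rcases hbi with h | h
      · left
        exact Nat.div_pos (by omega) (by omega)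
      · right
        exact ⟨by omega, by omega⟩)
    have h5 : 2 ∣ ((i : ℕ) + 1) * i := by
      rcases Nat.even_or_odd (i : ℕ) with h | h
      · exact (even_iff_two_dvd.mp h).mul_left _
      · exact (even_iff_two_dvd.mp (h.add_odd (by decide))).mul_right _
    have h6 : (((i : ℕ) : ℂ) + 1) ≠ 0 := Nat.cast_add_one_ne_zero (i : ℕ)
    have h7 : ((a : ℂ) * (e * i) + b) ≠ 0 := by
      have : a * (e * (i : ℕ)) + b ≠ 0 := by
        rcases hbi with h | h
        · omega
        · have : 0 < a * (e * (i : ℕ)) := Nat.mul_pos (by omega) (Nat.mul_pos (by omega) h)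
          omega
      exact_mod_cast this
    have h8 : -((nuK n e r (Sum.inr (Sum.inr i)) : ℕ) : ℂ) /
        (mulK n e r a b β (Sum.inr (Sum.inr i)) : ℕ) =
        -((1 / (e : ℂ) + ((((i : ℕ) + 1 : ℕ) : ℂ) - 1) / 2) +
          (0 : ℕ) * ((((i : ℕ) + 1 : ℕ) : ℂ) - 1) + (0 : ℕ)) /
          (a * ((((i : ℕ) + 1 : ℕ) : ℂ) - 1) + b / e) := by
      simp only [nuK, mulK]
      push_cast
      rw [half_cast h5]
      push_cast
      have h9 : (a : ℂ) * (e * ((i + 1) * i)) + b * (i + 1) = (i + 1) * (a * (e * i) + b) := by ring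
      have h10 : (a : ℂ) * ((i : ℂ) + 1 - 1) + b / e = (a * (e * i) + b) / e := by
        field_simp
        ring
      rw [h9, h10]
      field_simp
      ring
    rw [h8]
    exact h4

end Pool.Agent.Results.MP_a2a574_ag.ImprimitiveDiscriminants
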