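import Pool.Agent.H940.P.Top

/-!
# The strong monodromy conjecture for non-reduced quasi-homogeneous plane curves in the projective plane

Let `F_1, …, F_T` be nonzero forms in `ℂ[x, y, z]` of degrees `d_t ≥ 1`, `∑ d_t ≥ 2`, such that the curve
`{∏ F_t = 0}` in the projective plane is reduced and has only weighted homogeneous singularities: near each
singular point there are formal coordinates in which, up to units, all the `F_t` are weighted
homogeneous polynomials for the same positive weights, and `∏ F_t` has an isolated critical point.
Let `f = ∏ F_t ^ (a_t)` with any multiplicities `a_t ≥ 1`. We prove that every pole `s₀` of the topological zeta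
function of `f` is a root of the Bernstein-Sato polynomial of `f` (the strong form of Q1 for `f`; by the theorem of
Malgrange and Kashiwara, which is not formalised, `exp (2 π i s₀)` is a monodromy eigenvalue).

Examples of such curves: all arrangements of lines; arrangements of lines and conics, and of smooth
curves with quasi-homogeneous singularities (nodes, tacnodes, ordinary triple points, …); all curves
with singularities of type `A`, `D`, `E`; all curves whose components are given by quasi-homogeneous
germs `y ^ p = c x ^ q`. It is not assumed that `-3/(∑ a_t d_t)` is a root of the Bernstein-Sato polynomial; it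
need not be one.

**Method.** (1) Let `g = ∏ F_t` and `v_i = g ∂_i f / f = ∑_t a_t ∂_i F_t ∏_(s ≠ t) F_s` (`lg`). The `v_i` generate an
ideal of linear type (`lty'`): two combinations of them form a regular sequence outside of a divisor, and
locally `g` is in the ideal of the products of the `v_i` and of functions which vanish at the point
(`exists_euler'`). (2) An operator which kills all powers of `f` has its symbol in the ideal of the
relations of the `v_i`. Hence if `b(s) f ^ s = P(s) f ^ (s + 1)` near the origin, then `b(-3/N) = 0`,
`N = ∑ a_t d_t`, or there is a vector field which kills all the `v_i` and has a non-zero divergence at the origin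
(`root_or_field'`). (3) In the second case `f` is homogeneous for a second one-parameter group of linear
maps (`exists_second`), and there is a formula for the motivic zeta function without the denominator of
`-3/N` (`av_univ`). The error terms come from arcs with origin outside of `0`: near the singular lines they
are those of plane curve germs with multiplicities, for which the library proves the strong
monodromy conjecture (`st_plane`), and away from them the order of the `v_i` is bounded, so that the volumes
form geometric series with the denominators `-1/a_t` (`VS_lg_bdd`), which are roots (`sf_mult`).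
-/

set_option autoImplicit false

namespace Pool.Agent.Results.MP_a2a574_ag.TernaryPowers

open MvPolynomial Pool.Agent.H940.P
open Pool.Agent.H940.G (germAt)
open Pool.Agent.W428.MOT (MK Lu)
open Pool.Agent.TH192.MT (zetaM)
open Pool.Agent.TH192.MU (IsTopZeta)
open Pool.Agent.H628R4.TP (IsBFunction)

/-- **The strong form of Q1 for products of powers of ternary forms with weighted homogeneous singularities.**

`F_t ≠ 0` are forms of degrees `d_t ≥ 1`, `∑ d_t ≥ 2`, in three variables. For every singular point of the
curve `∏ F_t = 0` in the projective plane, with the coordinates `x_i = 1` and `q`, the tuple of the germs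
`germAt i q (F_t)` of the dehomogenized forms is weighted homogeneous in suitable formal coordinates,
and their product has an isolated critical point (`WHT`).

`Z` is the topological zeta function of `f = ∏ F_t ^ (a_t)`, `a_t ≥ 1` (`IsTopZeta E ε (zetaM f univ {c ≠ 0}) Z`:
for `s = 1, 2, …`, `Z(s)` is the value under `ε` of the motivic zeta function of `f` at `T = 𝕃 ^ (-s)`, after a
realisation `E` with values in a domain `R`, where `ε (E 𝕃) = 1` and `E 𝕃 ≠ 1`; for instance the Euler
characteristic, from the Hodge-Deligne polynomials), `s₀` is a pole of `Z`, and `b` satisfies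
`b(s) f ^ s = P(s) f ^ (s + 1)`, `P(s)` in the Weyl algebra, polynomial in `s` (for instance `b = b_f`). Then
`b(s₀) = 0`. -/
theorem result {T : ℕ} (F : Fin T → MvPolynomial (Fin 3) ℂ) (d : Fin T → ℕ)
    (hd : ∀ t, 1 ≤ d t) (hd2 : 2 ≤ ∑ t, d t)
    (hF : ∀ t, (F t).IsHomogeneous (d t)) (hF0 : ∀ t, F t ≠ 0)
    (H : ∀ (i : Fin 3) (q : Fin 2 → ℂ), (∀ j, eval (i.insertNth 1 q) (pderiv j (∏ t, F t)) = 0) →
      ∃ (g : Fin T → MvPolynomial (Fin 2) ℂ) (w : Fin 2 → ℕ) (N : Fin T → ℕ)
        (η : Fin 2 → MvPowerSeries (Fin 2) ℂ), WHT (fun t => germAt i q (F t)) g w N η)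
    (a : Fin T → ℕ) (ha : ∀ t, 1 ≤ a t)
    {R : Type} [CommRing R] [IsDomain R] (E : MK ℂ →+* R) (ε : R →+* ℂ)
    (hε : ε (E ((Lu ℂ : (MK ℂ)ˣ) : MK ℂ)) = 1) (hE : E ((Lu ℂ : (MK ℂ)ˣ) : MK ℂ) ≠ 1)
    (Z : RatFunc ℂ) (hZ : IsTopZeta E ε (zetaM (∏ t, F t ^ a t) Set.univ {c | c ≠ 0}) Z) (s₀ : ℂ)
    (hs : Z.denom.eval s₀ = 0) (b : Polynomial ℂ) (hb : IsBFunction (∏ t, F t ^ a t) b) :
    b.eval s₀ = 0 :=
  ma_top E ε hε hE (ma_ternary hd hd2 hF hF0 H a ha) Z hZ s₀ hs b hb

end Pool.Agent.Results.MP_a2a574_ag.TernaryPowers
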